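import Mathlib
import Pool.Agent.P.MP_1ed635_nt.Defs
import Pool.Agent.P.MP_1ed635_nt.Main

set_option autoImplicit false

open Pool.Agent.P.MP_1ed635_nt

namespace Pool.Agent.Results.MP_1ed635_nt.TwoMinimalReps

/-- There are a binary form `f` of degree `d ≥ 3` and a subfield `K` of `ℂ` containing its
coefficients, indeed `K` is the subfield generated by the coefficients of `f`, such that `f` has
finitely many, namely exactly two, different `K`-minimal representations. -/
theorem result :
    ∃ (d : ℕ) (f : MvPolynomial (Fin 2) ℂ) (K : Subfield ℂ),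
      3 ≤ d ∧ f.IsHomogeneous d ∧ (∀ m, MvPolynomial.coeff m f ∈ K) ∧
      K = Subfield.closure (Set.range fun m => MvPolynomial.coeff m f) ∧
      {S | IsMinRep K d f S}.Finite ∧ {S | IsMinRep K d f S}.ncard = 2 := by
  refine ⟨4, F, KQ, by norm_num, F_homog, F_coeff, ?_, ?_, ?_⟩
  · apply le_antisymm
    · rintro _ ⟨q, rfl⟩
      exact SubfieldClass.ratCast_mem _ q
    · rw [Subfield.closure_le]
      rintro _ ⟨m, rfl⟩
      exact F_coeff m
  · rw [minReps]; exact Set.toFinite _
  · rw [minReps]; exact Set.ncard_pair S1_ne_S2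

end Pool.Agent.Results.MP_1ed635_nt.TwoMinimalReps
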